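import Pool.Agent.J6H91.TZ.Stm2

/-!
# TZ2-REA: the real parts of the zeros on the torus form a semialgebraic set (helper48 for helper91)
-/

set_option autoImplicit false

namespace Pool.Agent.J6H48.TZ.REA

open MvPolynomial Pool.Agent.J6H91.Cyc Pool.Agent.Helper334_SA Pool.Agent.J6H91.TZ

variable {ι : Type} {σ : Type}

/-- the real and the imaginary part of a polynomial of complex functions with polynomial real and
imaginary parts (from `J6H27/TZ/LT`) -/
theorem pf_re_im (φ : (ι → ℝ) → σ → ℂ) (h1 : ∀ j, PF (fun v => (φ v j).re))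
    (h2 : ∀ j, PF (fun v => (φ v j).im)) (P : MvPolynomial σ ℂ) :
    PF (fun v => (eval (φ v) P).re) ∧ PF (fun v => (eval (φ v) P).im) := by
  induction P using MvPolynomial.induction_on with
  | C a =>
    simp only [eval_C]
    exact ⟨PF.const _, PF.const _⟩
  | add p q hp hq =>
    simp only [map_add, Complex.add_re, Complex.add_im]
    exact ⟨hp.1.add hq.1, hp.2.add hq.2⟩
  | mul_X p j hp =>
    simp only [map_mul, eval_X, Complex.mul_re, Complex.mul_im]
    exact ⟨(hp.1.mul (h1 j)).sub (hp.2.mul (h2 j)), (hp.1.mul (h2 j)).add (hp.2.mul (h1 j))⟩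

/-- the point with real parts `v (inl j)` and imaginary parts `v (inr j)` -/
def zz (v : σ ⊕ σ → ℝ) : σ → ℂ := fun j => ⟨v (Sum.inl j), v (Sum.inr j)⟩

/-- TZ2-REA. -/
theorem main : S_REA := by
  intro hPRJ σ _ _ P
  have hP := pf_re_im (fun v : σ ⊕ σ → ℝ => zz v) (fun j => PF.coord (Sum.inl j))
    (fun j => PF.coord (Sum.inr j)) P
  have hS : SAP (fun v : σ ⊕ σ → ℝ =>
      (∀ j ∈ (Finset.univ : Finset σ), v (Sum.inl j) ^ 2 + v (Sum.inr j) ^ 2 = 1) ∧
        (eval (zz v) P).re = 0 ∧ (eval (zz v) P).im = 0) :=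
    (SAP.forall_mem _ fun j _ =>
      SAP.eq (((PF.coord _).pow 2).add ((PF.coord _).pow 2)) PF.one).and
      ((SAP.eq_zero hP.1).and (SAP.eq_zero hP.2))
  have h := hPRJ (σ ⊕ σ) σ Sum.inl _ hS
  convert h using 1
  ext x
  constructor
  · rintro ⟨z, h1, h2, h3⟩
    refine ⟨Sum.elim (fun j => (z j).re) (fun j => (z j).im), ⟨fun j _ => ?_, ?_⟩, ?_⟩
    · have h4 := h1 j
      have h5 : ‖z j‖ ^ 2 = 1 := by rw [h4]; norm_num
      rw [Complex.sq_norm, Complex.normSq_apply] at h5
      simp only [Sum.elim_inl, Sum.elim_inr]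
      linarith
    · have h6 : zz (Sum.elim (fun j => (z j).re) (fun j => (z j).im)) = z := by
        funext j
        apply Complex.ext <;> simp [zz]
      rw [h6, h3]
      exact ⟨rfl, rfl⟩
    · funext j
      simp only [Function.comp, Sum.elim_inl]
      exact h2 j
  · rintro ⟨v, ⟨h1, h2, h3⟩, rfl⟩
    refine ⟨zz v, fun j => ?_, fun j => rfl, Complex.ext h2 h3⟩
    have h4 := h1 j (Finset.mem_univ j)
    have h5 : ‖zz v j‖ ^ 2 = 1 := by
      rw [Complex.sq_norm, Complex.normSq_apply, ← h4]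
      simp only [zz]
      ring
    have h6 := norm_nonneg (zz v j)
    nlinarith

end Pool.Agent.J6H48.TZ.REA
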